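import Pool.Agent.MP_c74c64_nt.Mg.H6_Main

open Pool.Agent.MP_c74c64_nt.H6 in
/-- Outside a proportion `ε` of any box with sides at least `L`, the number of good primes `p ≤ z`
outside `Λ` is `log log z` up to `ε log log z + C (z / log z) √(z / L)`, for all `z₀ ≤ z ≤ L`. -/
theorem Pool.Agent.Results.MP_c74c64_nt.AlmostAll.result (ε : ℝ) (hε : 0 < ε) :
    ∃ C z₀ : ℝ, ∀ (a₁ x₂ x₃ x₄ : ℤ) (n₂ n₃ n₄ : ℕ) (L : ℝ), L ≤ n₂ → L ≤ n₃ → L ≤ n₄ →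
      (Set.ncard {s : ℤ × ℤ × ℤ | s.1 ∈ Set.Ico x₂ (x₂ + n₂) ∧ s.2.1 ∈ Set.Ico x₃ (x₃ + n₃) ∧
        s.2.2 ∈ Set.Ico x₄ (x₄ + n₄) ∧ ∃ P, Admissible (curve a₁ s.1 s.2.1 s.2.2) P ∧
          ∃ z : ℝ, z₀ ≤ z ∧ z ≤ L ∧
            ε * Real.log (Real.log z) + C * (z / Real.log z * √(z / L)) <
              |(Set.ncard {p : ℕ | (p : ℝ) ≤ z ∧ Exceptional (curve a₁ s.1 s.2.1 s.2.2) P p} : ℝ) -
                Real.log (Real.log z)|} : ℝ) ≤ ε * (n₂ * n₃ * n₄) := by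
  obtain ⟨C, z₀, h6, h⟩ := almost_all hε
  refine ⟨C, z₀, fun a₁ x₂ x₃ x₄ n₂ n₃ n₄ L h₂ h₃ h₄ => le_trans ?_ (h a₁ x₂ x₃ x₄ n₂ n₃ n₄ L h₂ h₃ h₄)⟩
  rw [Nat.cast_le, ← Set.ncard_coe_finset]
  refine Set.ncard_le_ncard (fun s ⟨b₂, b₃, b₄, P, hP, z, z1, z2, b⟩ => ?_) (Finset.finite_toSet _)
  obtain ⟨e, e0, e6, he⟩ := count hP (h6.trans z1)
  rw [he] at b
  simp only [Finset.coe_filter, Box, Finset.mem_product, Finset.mem_Ico]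
  exact ⟨⟨b₂, b₃, b₄⟩, z, e, z1, z2, e0, e6, b⟩
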