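import Pool.Agent.MP_c74c64_nt.Mg.Main

open WeierstrassCurve WeierstrassCurve.Affine in
/-- Let `P = (a₁/d₁², b₁/d₁³)` be a non-torsion rational point with everywhere nonsingular
reduction and let `p` be an odd good prime with `N_p = p`.  Write `N_p P = (a/d², b/d³)`.  Then
`a^(p-1) ≡ 1 (mod p²)` exactly when `p² ∣ d`. -/
theorem Pool.Agent.Results.MP_c74c64_nt.Anomalous.result
    (W : WeierstrassCurve ℤ) (a₁ b₁ d₁ : ℤ) (hd₁ : 0 < d₁) (ha₁ : IsCoprime a₁ d₁)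
    (_hb₁ : IsCoprime b₁ d₁)
    (h₁ : (W.map (Int.castRingHom ℚ)).toAffine.Nonsingular
      ((a₁ : ℚ) / (d₁ : ℚ) ^ 2) ((b₁ : ℚ) / (d₁ : ℚ) ^ 3))
    (hP : ¬ IsOfFinAddOrder (Point.some _ _ h₁))
    (hE : ∀ (l : ℕ) [Fact l.Prime], ¬ (l : ℤ) ∣ d₁ →
      (W.map (Int.castRingHom (ZMod l))).toAffine.Nonsingular
        ((a₁ : ZMod l) / (d₁ : ZMod l) ^ 2) ((b₁ : ZMod l) / (d₁ : ZMod l) ^ 3))
    (p : ℕ) (hp : p.Prime) (hp2 : p ≠ 2) (hΔ : ¬ (p : ℤ) ∣ W.Δ)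
    (hN : Nat.card (W.map (Int.castRingHom (ZMod p))).toAffine.Point = p)
    (a b d : ℤ) (hd : 0 < d) (ha : IsCoprime a d) (_hb : IsCoprime b d)
    (h : (W.map (Int.castRingHom ℚ)).toAffine.Nonsingular
      ((a : ℚ) / (d : ℚ) ^ 2) ((b : ℚ) / (d : ℚ) ^ 3))
    (hab : Nat.card (W.map (Int.castRingHom (ZMod p))).toAffine.Point • Point.some _ _ h₁ =
      Point.some _ _ h) :
    a ^ (p - 1) ≡ 1 [ZMOD (p : ℤ) ^ 2] ↔ (p : ℤ) ^ 2 ∣ d := by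
  have : Fact p.Prime := ⟨hp⟩
  rw [hN] at hab
  exact (Pool.Agent.MP_c74c64_nt.main W a₁ b₁ d₁ hd₁ ha₁ h₁ hP hE p hp2 hΔ hN a b d hd ha h hab).1
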