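import Pool.Agent.MP_c74c64_nt.H6.Local

open Pool.Agent.MP_c74c64_nt.H6 in
/-- Over every good residue class modulo `p ≥ 7`, the pairs for which `p` lies outside `Λ` are cut
out by one nontrivial linear congruence among the `p³` lifts modulo `p²`. -/
theorem Pool.Agent.Results.MP_c74c64_nt.LocalDensity.result (p : ℕ) (hp : p.Prime) (h7 : 7 ≤ p)
    (a₁ a₂ a₃ a₄ : ℤ) (hΔ : ¬ (p : ℤ) ∣ (curve a₁ a₂ a₃ a₄).Δ) :
    ∃ l₂ l₃ l₄ c : ℤ, ¬ ((p : ℤ) ∣ l₂ ∧ (p : ℤ) ∣ l₃ ∧ (p : ℤ) ∣ l₄) ∧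
      ∀ (v₂ v₃ v₄ : ℤ) (P : _), Admissible (curve a₁ (a₂ + p * v₂) (a₃ + p * v₃) (a₄ + p * v₄)) P →
        (Exceptional (curve a₁ (a₂ + p * v₂) (a₃ + p * v₃) (a₄ + p * v₄)) P p ↔
          l₂ * v₂ + l₃ * v₃ + l₄ * v₄ ≡ c [ZMOD p]) := by
  have : Fact p.Prime := ⟨hp⟩
  obtain ⟨l₂, l₃, l₄, c, h1, h2⟩ := local_structure h7 (a₁ := (a₁ : ZMod (p ^ 2))) (a₂ := a₂)
    (a₃ := a₃) (a₄ := a₄) (by
      have e : (curve (a₁ : ZMod (p ^ 2)) a₂ a₃ a₄).map (rh p) =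
          (curve a₁ a₂ a₃ a₄).map (Int.castRingHom _) := by
        simp only [curve_map, map_intCast, eq_intCast]
      rwa [e, WeierstrassCurve.map_Δ, eq_intCast, Ne, ZMod.intCast_zmod_eq_zero_iff_dvd])
  obtain ⟨l₂, rfl⟩ := ZMod.intCast_surjective l₂
  obtain ⟨l₃, rfl⟩ := ZMod.intCast_surjective l₃
  obtain ⟨l₄, rfl⟩ := ZMod.intCast_surjective l₄
  obtain ⟨c, rfl⟩ := ZMod.intCast_surjective c
  refine ⟨l₂, l₃, l₄, c, ?_, fun v₂ v₃ v₄ P hP => ?_⟩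
  · simp only [Ne, ZMod.intCast_zmod_eq_zero_iff_dvd] at h1
    tauto
  · rw [link (by omega) hP, ← ZMod.intCast_eq_intCast_iff]
    have := h2 v₂ v₃ v₄
    simp only [map_intCast] at this
    push_cast
    exact this
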